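import Pool.Agent.MP_09973c_nt.H54.Kit

/-!
Chains whose top avoids a finite set stay away from given points.
-/

set_option autoImplicit false

namespace Pool.Agent.MP_09973c_nt.H54

open Finset Pool.Agent.MP_09973c_nt.H31 Pool.Agent.MP_09973c_nt.H58

theorem norm_pow_sub_le {x y : ℂ} {M : ℝ} (hx : ‖x‖ ≤ M) (hy : ‖y‖ ≤ M) (n : ℕ) :
    ‖x ^ n - y ^ n‖ ≤ n * M ^ (n - 1) * ‖x - y‖ := by
  have hM : 0 ≤ M := (norm_nonneg _).trans hx
  rw [← geom_sum₂_mul, norm_mul]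
  refine mul_le_mul_of_nonneg_right ?_ (norm_nonneg _)
  refine (norm_sum_le _ _).trans ((sum_le_card_nsmul _ _ (M ^ (n - 1)) fun i hi => ?_).trans ?_)
  · have hi' := mem_range.1 hi
    rw [norm_mul, norm_pow, norm_pow]
    calc ‖x‖ ^ i * ‖y‖ ^ (n - 1 - i) ≤ M ^ i * M ^ (n - 1 - i) := by gcongr
      _ = M ^ (n - 1) := by rw [← pow_add]; congr 1; omega
  · rw [card_range, nsmul_eq_mul]

/-- Distance to a bounded point from the distance of powers. -/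
theorem le_dist_of_pow {x y : ℂ} {C₀ L ε : ℝ} {n : ℕ} (hL : 1 ≤ L)
    (hn : n * (C₀ + 1) ^ (n - 1) ≤ L) (hy : ‖y‖ ≤ C₀) (hε : ε ≤ 1) (h : ε ≤ ‖x ^ n - y ^ n‖) :
    ε / L ≤ ‖x - y‖ := by
  rw [div_le_iff₀ (by linarith)]
  rcases le_total 1 ‖x - y‖ with h1 | h1
  · nlinarith
  · have hx : ‖x‖ ≤ C₀ + 1 := by
      have := norm_add_le (x - y) y
      rw [sub_add_cancel] at this
      linarith
    have := norm_pow_sub_le hx (by linarith : ‖y‖ ≤ C₀ + 1) n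
    have := mul_le_mul_of_nonneg_right hn (norm_nonneg (x - y))
    linarith

/-- The values of the power one level up. -/
noncomputable def upS (p q : ℕ) (a : ℂ) (W : Finset ℂ) : Finset ℂ :=
  (W ×ˢ range p).image fun z => (ze p ^ z.2 * rt p (z.1 - a)) ^ q

theorem card_upS (p q : ℕ) (a : ℂ) (W : Finset ℂ) : (upS p q a W).card ≤ W.card * p :=
  card_image_le.trans (by simp)

theorem up_step {p q : ℕ} (hp : 0 < p) (hpq : p < q) {C₀ L : ℝ} (hC : 0 ≤ C₀)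
    (hL : q * (4 * (p : ℝ) ^ 3) ^ (p - 1) * (C₀ + 1) ^ (q - p) ≤ L) {a x y w : ℂ} {W : Finset ℂ}
    (h : x ^ p + a = y ^ q) (hx : ‖x‖ ≤ C₀) (hw : w ∈ W) (h1 : ‖y ^ q - w‖ ≤ 1) :
    ∃ w' ∈ upS p q a W, ‖x ^ q - w'‖ ≤ L * ‖y ^ q - w‖ := by
  obtain ⟨ω, hω, hc⟩ := rt_close goodF_complex hp x (rt p (w - a))
  have : NeZero p := ⟨hp.ne'⟩
  obtain ⟨i, hi, rfl⟩ := (ze_prim hp).eq_pow_of_pow_eq_one hω
  refine ⟨_, mem_image.2 ⟨(w, i), mem_product.2 ⟨hw, mem_range.2 hi⟩, rfl⟩, ?_⟩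
  have he : x ^ p - rt p (w - a) ^ p = y ^ q - w := by rw [rt_pow hp, ← h]; ring
  rw [he] at hc
  set γ := rt p (w - a) with hγ
  have hg : ‖γ‖ ≤ C₀ + 1 := by
    refine le_of_pow_le_pow_left₀ hp.ne' (by linarith) ?_
    have h2 : γ ^ p = x ^ p - (y ^ q - w) := by rw [← he]; ring
    have h3 : ‖x‖ ^ p ≤ C₀ ^ p := pow_le_pow_left₀ (norm_nonneg _) hx _
    have h4 : C₀ ^ p + 1 ^ p ≤ (C₀ + 1) ^ p := pow_add_pow_le hC zero_le_one hp.ne'
    rw [one_pow] at h4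
    rw [← norm_pow, h2]
    have := norm_sub_le (x ^ p) (y ^ q - w)
    rw [norm_pow] at this
    linarith
  have hn : ‖ze p ^ i * γ‖ = ‖γ‖ := by rw [norm_mul, norm_root hp hω, one_mul]
  have h5 := norm_pow_sub_le (M := max ‖x‖ ‖γ‖) (le_max_left _ _) (hn.le.trans (le_max_right _ _)) q
  have h6 : max ‖x‖ ‖γ‖ ^ (q - p) ≤ (C₀ + 1) ^ (q - p) :=
    pow_le_pow_left₀ (le_max_of_le_left (norm_nonneg _)) (max_le (by linarith) hg) _
  have h7 : max ‖x‖ ‖γ‖ ^ (q - 1) = max ‖x‖ ‖γ‖ ^ (p - 1) * max ‖x‖ ‖γ‖ ^ (q - p) := by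
    rw [← pow_add]; congr 1; omega
  calc ‖x ^ q - (ze p ^ i * γ) ^ q‖
      ≤ q * ((‖x - ze p ^ i * γ‖ * max ‖x‖ ‖γ‖ ^ (p - 1)) * max ‖x‖ ‖γ‖ ^ (q - p)) := by
        rw [h7] at h5; linarith
    _ ≤ q * (((4 * (p : ℝ) ^ 3) ^ (p - 1) * ‖y ^ q - w‖) * (C₀ + 1) ^ (q - p)) := by gcongr
    _ = (q * (4 * (p : ℝ) ^ 3) ^ (p - 1) * (C₀ + 1) ^ (q - p)) * ‖y ^ q - w‖ := by ring
    _ ≤ _ := mul_le_mul_of_nonneg_right hL (norm_nonneg _)

theorem avoid_up {p q : ℕ} (hp : 0 < p) (hpq : p < q) {C₀ L : ℝ} (hC : 0 ≤ C₀) (hL1 : 1 ≤ L)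
    (hL : q * (4 * (p : ℝ) ^ 3) ^ (p - 1) * (C₀ + 1) ^ (q - p) ≤ L) (a : ℂ) (m : ℕ) :
    ∀ W₀ : Finset ℂ, ∃ W : Finset ℂ, W.card ≤ (W₀.card + m) * p ^ m ∧
      ∀ (δ : ℝ) (u : ℕ → ℂ), 0 < δ → δ ≤ 1 → Bwd p q a m u → (∀ i ≤ m, ‖u i‖ ≤ C₀) →
        (∀ w ∈ W, δ ≤ ‖u m ^ q - w‖) →
        (∀ w ∈ W₀, δ / L ^ m ≤ ‖u 0 ^ q - w‖) ∧ ∀ i < m, δ / L ^ m ≤ ‖u i ^ q‖ := by
  classical
  induction m with
  | zero => exact fun W₀ => ⟨W₀, by simp, fun δ u _ _ _ _ h => ⟨by simpa using h, by simp⟩⟩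
  | succ m ih =>
    intro W₀
    obtain ⟨W, hW, h⟩ := ih (upS p q a (insert 0 W₀))
    refine ⟨W, hW.trans ?_, fun δ u h0 h1 hu hb hw => ?_⟩
    · have h2 := card_upS p q a (insert 0 W₀)
      have h3 := Nat.mul_le_mul_right p (card_insert_le 0 W₀)
      have h4 : m ≤ m * p := Nat.le_mul_of_pos_right _ hp
      rw [pow_succ', ← mul_assoc]
      refine Nat.mul_le_mul_right _ ?_
      nlinarith
    · obtain ⟨h2, h3⟩ := h δ (fun i => u (i + 1)) h0 h1 (fun k hk => hu (k + 1) (by omega))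
        (fun i hi => hb (i + 1) (by omega)) hw
      have hLm : 1 ≤ L ^ m := one_le_pow₀ hL1
      have h4 : ∀ w ∈ insert 0 W₀, δ / L ^ (m + 1) ≤ ‖u 0 ^ q - w‖ := by
        intro w hw
        rcases le_total 1 ‖u 0 ^ q - w‖ with h5 | h5
        · exact (div_le_one (by positivity)).2 (h1.trans (one_le_pow₀ hL1)) |>.trans h5
        · obtain ⟨w', hw', h6⟩ := up_step hp hpq hC hL (hu 0 (by omega)) (hb 1 (by omega)) hw h5
          rw [pow_succ, ← div_div, div_le_iff₀ (by linarith), mul_comm]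
          exact (h2 w' hw').trans h6
      refine ⟨fun w hw => h4 w (mem_insert_of_mem hw), fun i hi => ?_⟩
      cases i with
      | zero => simpa using h4 0 (mem_insert_self _ _)
      | succ i =>
        refine le_trans ?_ (h3 i (by omega))
        exact div_le_div_of_nonneg_left h0.le (by positivity) (pow_le_pow_right₀ hL1 (by omega))

theorem root_bound {p q : ℕ} (hp : 0 < p) (hpq : p < q) {C₀ : ℝ} {a x y : ℂ} (ha : 2 + ‖a‖ ≤ C₀)
    (h : x ^ p + a = y ^ q) (hx : ‖x‖ ≤ C₀) : ‖y‖ ≤ C₀ := by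
  have h0 := norm_nonneg a
  refine le_of_pow_le_pow_left₀ (n := q) (by omega) (by linarith) ?_
  have h3 : ‖x‖ ^ p ≤ C₀ ^ p := pow_le_pow_left₀ (norm_nonneg _) hx _
  have h4 : C₀ ^ 1 ≤ C₀ ^ p := pow_le_pow_right₀ (by linarith) hp
  have h5 : C₀ ^ (p + 1) ≤ C₀ ^ q := pow_le_pow_right₀ (by linarith) hpq
  have h6 := norm_add_le (x ^ p) a
  rw [h, norm_pow, norm_pow] at h6
  rw [pow_succ] at h5
  rw [pow_one] at h4
  nlinarith

theorem avoid_down {p q : ℕ} (hp : 2 ≤ p) (hpq : p < q) {C₀ L : ℝ} (hL1 : 1 ≤ L)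
    (hL : p * (C₀ + 1) ^ (p - 1) ≤ L) {a : ℂ} (ha : 2 + ‖a‖ ≤ C₀) (i : ℕ) :
    ∃ Γ : Finset ℂ, Γ.card ≤ q ^ i ∧ (∀ γ ∈ Γ, ‖γ‖ ≤ C₀) ∧
      ∀ (ε : ℝ) (t : ℕ → ℂ), 0 < ε → ε ≤ 1 → Bwd p q a i t → (∀ γ ∈ Γ, ε ≤ ‖t 0 - γ‖) →
        (ε / L) ^ q ^ i ≤ ‖t i‖ := by
  classical
  have hq : 0 < q := by omega
  induction i with
  | zero =>
    refine ⟨{0}, by simp, by simpa using (by linarith [norm_nonneg a] : 0 ≤ C₀), ?_⟩
    intro ε t h0 _ _ h
    have := h 0 (by simp)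
    rw [sub_zero] at this
    rw [pow_zero, pow_one]
    exact (div_le_self h0.le hL1).trans this
  | succ i ih =>
    obtain ⟨Γ, h1, h2, h3⟩ := ih
    have hroot : ∀ (γ : ℂ) (e : ℕ), γ ^ p + a = (ze q ^ e * rt q (γ ^ p + a)) ^ q := fun γ e => by
      rw [mul_pow, ze_pow_pow hq, one_mul, rt_pow hq]
    refine ⟨(Γ ×ˢ range q).image fun z => ze q ^ z.2 * rt q (z.1 ^ p + a), ?_, ?_, ?_⟩
    · refine card_image_le.trans ?_
      rw [card_product, card_range, pow_succ]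
      exact Nat.mul_le_mul_right _ h1
    · intro γ hγ
      obtain ⟨z, hz, rfl⟩ := mem_image.1 hγ
      exact root_bound (by omega) hpq ha (hroot _ _) (h2 _ (mem_product.1 hz).1)
    · intro ε t h0 hε ht h
      have hεq : ε ^ q ≤ 1 := pow_le_one₀ h0.le hε
      have h4 := h3 (ε ^ q / L) (fun k => t (k + 1)) (by positivity)
        ((div_le_self (by positivity) hL1).trans hεq) (fun k hk => ht (k + 1) (by omega))
        (fun γ hγ => by
          refine le_dist_of_pow hL1 hL (h2 γ hγ) hεq ?_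
          have h5 := congrArg (Polynomial.eval (t 0))
            (X_pow_sub_C_eq_prod (ze_prim hq) hq (rt_pow hq (γ ^ p + a)))
          simp only [Polynomial.eval_sub, Polynomial.eval_pow, Polynomial.eval_X,
            Polynomial.eval_C, Polynomial.eval_prod] at h5
          have h6 : t (0 + 1) ^ p - γ ^ p = t 0 ^ q - (γ ^ p + a) := by
            rw [← ht 0 (by omega)]; ring
          rw [h6, h5, norm_prod]
          calc ε ^ q = ∏ _e ∈ range q, ε := by simp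
            _ ≤ _ := prod_le_prod (fun _ _ => h0.le) fun e he =>
              h _ (mem_image.2 ⟨(γ, e), mem_product.2 ⟨hγ, he⟩, rfl⟩))
      refine le_trans ?_ h4
      rw [pow_succ', pow_mul]
      refine pow_le_pow_left₀ (by positivity) ?_ _
      rw [div_pow, div_div, ← sq]
      exact div_le_div_of_nonneg_left (by positivity) (by positivity)
        (pow_le_pow_right₀ hL1 (by omega))

/-- Pigeonhole. -/
theorem exists_far (W : Finset ℂ) {δ : ℝ} (hδ : 2 * ((W.card : ℝ) + 1) * δ ≤ 1) :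
    ∃ y : ℝ, 1 ≤ y ∧ y ≤ 2 ∧ ∀ w ∈ W, δ ≤ |y - ‖w‖| := by
  by_contra hne
  push Not at hne
  have hM : (0 : ℝ) < W.card + 1 := by positivity
  have : ∀ i ∈ range (W.card + 1), ∃ w ∈ W, |1 + (i : ℝ) / (W.card + 1) - ‖w‖| < δ := by
    intro i hi
    have hi' : (i : ℝ) ≤ W.card + 1 := by exact_mod_cast (mem_range.1 hi).le
    have := (div_le_one hM).2 hi'
    have h0 : (0 : ℝ) ≤ i / (W.card + 1) := by positivity
    exact hne _ (by linarith) (by linarith)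
  choose! f hf hf' using this
  obtain ⟨i, hi, k, hk, hik, he⟩ := exists_ne_map_eq_of_card_lt_of_maps_to
    (s := range (W.card + 1)) (t := W) (by simp) (f := f) (fun i hi => hf i hi)
  have h1 := abs_lt.1 (hf' i hi)
  have h2 := abs_lt.1 (hf' k hk)
  rw [he] at h1
  have h3 : ∀ i k : ℕ, i < k → 2 * δ ≤ (k : ℝ) / (W.card + 1) - i / (W.card + 1) := by
    intro i k h
    have : (i : ℝ) + 1 ≤ k := by exact_mod_cast h
    rw [← sub_div, le_div_iff₀ hM]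
    linarith
  rcases lt_or_gt_of_ne hik with h | h
  · have := h3 _ _ h; linarith
  · have := h3 _ _ h; linarith

/-- Choice of the radius of the top circle. -/
theorem avoid {p q : ℕ} (hp : 2 ≤ p) (hpq : p < q) {C₀ L : ℝ} (hL1 : 1 ≤ L)
    (hL : q * (4 * (p : ℝ) ^ 3) ^ (p - 1) * (C₀ + 1) ^ (q - p) ≤ L)
    (hL' : q * (C₀ + 1) ^ (q - 1) ≤ L) {a ξ : ℂ} (ha : 2 + ‖a‖ ≤ C₀) (hξ : ‖ξ‖ = 1)
    (j m : ℕ) (Bad : Finset ℂ) {δ : ℝ} (h0 : 0 < δ)
    (hδ : 2 * (((Bad.card + q ^ (j + 1) + m) * p ^ m : ℕ) + 1 : ℝ) * δ ≤ 1) :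
    ∃ y : ℝ, 1 ≤ y ∧ y ≤ 2 ∧ ∀ u t : ℕ → ℂ, ‖u m‖ = y → OkP p q a ξ C₀ j m (u, t) →
      (∀ i ≤ m, (δ / L ^ (m + 2)) ^ q ^ j ≤ ‖u i‖) ∧ (∀ i ≤ j, (δ / L ^ (m + 2)) ^ q ^ j ≤ ‖t i‖) ∧
      ∀ β ∈ Bad, (δ / L ^ (m + 2)) ^ q ^ j ≤ ‖u 0 - β‖ := by
  classical
  have hq : 0 < q := by omega
  have hC : 2 ≤ C₀ := by linarith [norm_nonneg a]
  have hξ0 : ξ ≠ 0 := by rintro rfl; simp at hξ
  have hLp : p * (C₀ + 1) ^ (p - 1) ≤ L := by
    refine le_trans ?_ hL'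
    have : (p : ℝ) ≤ q := by exact_mod_cast hpq.le
    have := pow_le_pow_right₀ (by linarith : 1 ≤ C₀ + 1) (by omega : p - 1 ≤ q - 1)
    gcongr
  choose Γ hΓ _ hΓ' using avoid_down hp hpq hL1 hLp ha
  set B' := Bad ∪ ((range (j + 1)).biUnion Γ).image fun γ => γ / ξ with hB'
  have hcard : B'.card ≤ Bad.card + q ^ (j + 1) := by
    refine (card_union_le _ _).trans (Nat.add_le_add_left (card_image_le.trans
      (card_biUnion_le.trans ((sum_le_sum fun i _ => hΓ i).trans ?_))) _)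
    exact (Nat.geomSum_lt (by omega) fun k hk => mem_range.1 hk).le
  obtain ⟨W, hW, hW'⟩ := avoid_up (by omega) hpq (by linarith) hL1 hL a m (B'.image (· ^ q))
  have hWc : (W.card : ℝ) ≤ ((Bad.card + q ^ (j + 1) + m) * p ^ m : ℕ) := by
    exact_mod_cast hW.trans (Nat.mul_le_mul_right _
      (Nat.add_le_add_right (card_image_le.trans hcard) _))
  have hδ1 : δ ≤ 1 := by
    have : (0 : ℝ) ≤ ((Bad.card + q ^ (j + 1) + m) * p ^ m : ℕ) := by positivity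
    nlinarith
  obtain ⟨y, hy1, hy2, hy⟩ := exists_far W (δ := δ) (by nlinarith)
  have hyq : (y ^ ((q : ℝ)⁻¹)) ^ q = y := Real.rpow_inv_natCast_pow (by linarith) hq.ne'
  have hy0 : 0 ≤ y ^ ((q : ℝ)⁻¹) := Real.rpow_nonneg (by linarith) _
  have hy3 : 1 ≤ y ^ ((q : ℝ)⁻¹) := Real.one_le_rpow hy1 (by positivity)
  refine ⟨y ^ ((q : ℝ)⁻¹), hy3, ?_, fun u t hm ⟨hu, hb, ht0, ht⟩ => ?_⟩
  · calc y ^ ((q : ℝ)⁻¹) = (y ^ ((q : ℝ)⁻¹)) ^ 1 := (pow_one _).symm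
      _ ≤ (y ^ ((q : ℝ)⁻¹)) ^ q := pow_le_pow_right₀ hy3 hq
      _ ≤ 2 := hyq.le.trans hy2
  simp only at hu hb ht0 ht
  obtain ⟨h1, h2⟩ := hW' δ u h0 hδ1 hu hb fun w hw => by
    refine (hy w hw).trans ?_
    have := abs_norm_sub_norm_le (u m ^ q) w
    rwa [norm_pow, hm, hyq] at this
  have hLm : 1 ≤ L ^ m := one_le_pow₀ hL1
  have hε1 : δ / L ^ m ≤ 1 := (div_le_self h0.le hLm).trans hδ1
  have hε2 : δ / L ^ m / L ≤ δ / L ^ m := div_le_self (by positivity) hL1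
  have he : δ / L ^ (m + 2) = δ / L ^ m / L / L := by rw [div_div, div_div, pow_succ, pow_succ]; ring
  have hε3 : δ / L ^ m / L / L ≤ δ / L ^ m / L := div_le_self (by positivity) hL1
  have hη : ∀ i ≤ j, (δ / L ^ (m + 2)) ^ q ^ j ≤ (δ / L ^ m / L / L) ^ q ^ i := fun i hi => by
    rw [he]
    exact pow_le_pow_of_le_one (by positivity) (by linarith) (Nat.pow_le_pow_right hq hi)
  have hη0 := hη 0 (Nat.zero_le _)
  rw [pow_zero, pow_one] at hη0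
  have h3 : ∀ β ∈ B', δ / L ^ m / L ≤ ‖u 0 - β‖ := fun β hβ => by
    rw [norm_sub_rev]
    refine le_dist_of_pow hL1 hL' (hb 0 (Nat.zero_le _)) hε1 ?_
    rw [norm_sub_rev]
    exact h1 _ (mem_image_of_mem _ hβ)
  refine ⟨fun i hi => ?_, fun i hi => ?_, fun β hβ => ?_⟩
  · rcases le_total 1 ‖u i‖ with h4 | h4
    · linarith
    · rcases hi.lt_or_eq with h5 | rfl
      · have h6 := h2 i h5
        have h7 : ‖u i‖ ^ q ≤ ‖u i‖ ^ 1 := pow_le_pow_of_le_one (norm_nonneg _) h4 hq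
        rw [norm_pow] at h6
        rw [pow_one] at h7
        linarith
      · linarith
  · refine (hη i hi).trans (hΓ' i _ t (by positivity) (by linarith)
      (fun k hk => ht k (by omega)) fun γ hγ => ?_)
    have h4 := h3 (γ / ξ) (mem_union_right _ (mem_image_of_mem _
      (mem_biUnion.2 ⟨i, mem_range.2 (by omega), hγ⟩)))
    have h5 : t 0 - γ = ξ * (u 0 - γ / ξ) := by rw [ht0]; field_simp
    rwa [h5, norm_mul, hξ, one_mul]
  · linarith [h3 β (mem_union_left _ hβ)]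

end Pool.Agent.MP_09973c_nt.H54
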