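import Pool.Agent.MP_09973c_nt.H54.Mul

/-!
The system of monomials with its grid.
-/

set_option autoImplicit false

namespace Pool.Agent.MP_09973c_nt.H54

open Finset Pool.Agent.MP_09973c_nt.H31 Pool.Agent.MP_09973c_nt.H58

variable {p q j m T : ℕ} {a ξ : ℂ}

variable (p q j m T a ξ) in
/-- The grid path. -/
noncomputable def GP (y : ℝ) (k : PK p q j m T) : ℕ → ℂ :=
  GG (tr p q j) (tr q p j) (tα (ξ ^ q) j) (tβ a j) (m + j) T y k

theorem GP_norm (y : ℝ) (hy : 0 ≤ y) (k : PK p q j m T) : ‖GP p q j m T a ξ y k (m + j)‖ = y := by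
  rw [GP, GG_top, norm_mul, norm_root k.1.pos (ze_pow_pow k.1.pos _), mul_one, Complex.norm_real,
    Real.norm_of_nonneg hy]

theorem GP_ok (hp : 0 < p) (hpq : p < q) {C₀ : ℝ} (ha : 2 + ‖a‖ ≤ C₀) {y : ℝ} (hy : 0 ≤ y)
    (hy2 : y ≤ 2) (k : PK p q j m T) : OkP p q a ξ C₀ j m (sp2 ξ j (GP p q j m T a ξ y k)) :=
  sp2_ok hp hpq ha (gv_path (tr_pos hp (by omega) j) _ _)
    (by rw [GP_norm y hy]; linarith [norm_nonneg a])

theorem GP_grid (hp : 0 < p) (hpq : p < q) {C₀ : ℝ} (ha : 2 + ‖a‖ ≤ C₀) {y : ℝ} (hy : 0 ≤ y)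
    (hy2 : y ≤ 2) (h0 : ∀ k, ∀ i ≤ m + j, GP p q j m T a ξ y k i ≠ 0) :
    Grid p q a ξ C₀ j m fun k => sp2 ξ j (GP p q j m T a ξ y k) := by
  classical
  have hr := tr_pos hp (by omega : 0 < q) j
  refine ⟨GP_ok hp hpq ha hy hy2, fun m₁ hm j₁ hj good h => ?_, fun hj ζ hζ => ?_⟩
  · choose u t hu hum ht0 ht hgood using h
    have : ∀ x : PK p q j m T, ∃ l' : Idx (tr p q j) (m + j),
        (∀ k, k < j - j₁ ∨ m₁ + j ≤ k → expo l' k = expo x.2 k) ∧
        ∀ k, j - j₁ ≤ k → k ≤ m₁ + j → GP p q j m T a ξ y (x.1, l') k = pv j (u x) (t x) k :=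
      fun x => idx_realize hr (y * ze T ^ (x.1 : ℕ)) x.2 (by omega) (by omega) (pv j (u x) (t x))
        (by rw [pv_of_le (by omega), Nat.add_sub_cancel, hum]; rfl)
        (pv_step (hu x) (ht0 x) (ht x))
    choose l' h1 h2 using this
    have := block_count (K := Fin (m₁ + j₁) → Fin q) univ good
      (fun x i => ⟨expo x.2 (j - j₁ + i), (expo_lt hr _ _).trans_le (tr_le hpq.le _ _)⟩)
      (fun x => (x.1, l' x)) (fun x _ => hgood x _ (fun i hi => ?_) fun i hi => ?_)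
      (fun x _ x' _ he hk => Prod.ext (Prod.ext_iff.1 he).1 (idx_ext fun k _ => ?_))
    · simpa using this
    · simp only [sp2]
      rw [h2 x _ (by omega) (by omega), pv_of_le (by omega), Nat.add_sub_cancel]
    · simp only [sp2]
      split_ifs with hi0
      · rw [h2 x _ (by omega) (by omega), pv_of_le le_rfl, Nat.sub_self, hi0, ht0]
      · rw [h2 x _ (by omega) (by omega), pv_of_lt (by omega), show j - (j - i) = i by omega]
    · by_cases hk' : k < j - j₁ ∨ m₁ + j ≤ k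
      · rw [← h1 x k hk', ← h1 x' k hk', show l' x = l' x' from congrArg Prod.snd he]
      · have := congrArg Fin.val (congrFun hk ⟨k - (j - j₁), by omega⟩)
        simp only at this
        rwa [show j - j₁ + (k - (j - j₁)) = k by omega] at this
  · have : ∀ x : PK p q j m T, ∃ l' : Idx (tr p q j) (m + j),
        (∀ k, k < 0 ∨ 1 ≤ k → expo l' k = expo x.2 k) ∧
        ∀ k, 0 ≤ k → k ≤ 1 → GP p q j m T a ξ y (x.1, l') k =
          if k = 0 then ζ * GP p q j m T a ξ y x 0 else GP p q j m T a ξ y x k :=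
      fun x => idx_realize (lo := 0) (hi := 1) hr (y * ze T ^ (x.1 : ℕ)) x.2 (by omega) (by omega)
        (fun k => if k = 0 then ζ * GP p q j m T a ξ y x 0 else GP p q j m T a ξ y x k) rfl
        (fun k _ hk => by
          obtain rfl : k = 0 := by omega
          have e := gv_path (s := tr q p j) (α := tα (ξ ^ q) j) (β := tβ a j) (n := m + j) hr
            (y * ze T ^ (x.1 : ℕ)) (expo x.2) 0 (by omega)
          have e2 : ζ ^ tr p q j 0 = 1 := by rw [tr_eq, if_pos (by omega), hζ]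
          rw [if_pos rfl, if_neg (by omega), mul_pow, e2, one_mul]
          exact e)
    choose l' h1 h2 using this
    have hζ0 : ζ ≠ 0 := ne_zero_of_pow_eq_one hp hζ
    have hinj : Function.Injective fun x : PK p q j m T => (x.1, l' x) := by
      intro x x' he
      refine Prod.ext (Prod.ext_iff.1 he).1 (idx_ext fun k hk => ?_)
      by_cases hk0 : k = 0
      · subst hk0
        have e0 := h2 x 0 le_rfl (by omega)
        have e1 := h2 x 1 (by omega) le_rfl
        simp only at he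
        rw [he, h2 x' _ (by omega) (by omega)] at e0 e1
        simp only [if_true, one_ne_zero, if_false] at e0 e1
        exact gv_digit hr hk (expo_lt hr _ _) (expo_lt hr _ _) (h0 x 0 (by omega))
          (mul_left_cancel₀ hζ0 e0).symm e1.symm
      · rw [← h1 x k (by omega), ← h1 x' k (by omega),
          show l' x = l' x' from congrArg Prod.snd he]
    refine ⟨Equiv.ofBijective _ (Finite.injective_iff_bijective.1 hinj), fun x => ?_⟩
    simp only [sp2, Equiv.ofBijective_apply]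
    rw [if_neg (by omega), if_neg (by omega), Nat.sub_self, h2 x 0 le_rfl (by omega), if_pos rfl]

theorem exists_sys (hp : 2 ≤ p) (hpq : p < q) {C₀ : ℝ} (ha : 2 + ‖a‖ ≤ C₀) (hξ : ξ ^ p = 1)
    (hj : j ≤ m) {T' : ℕ} (hT : T' + (2 * q * m + 1) ≤ T) {y η B : ℝ} (hy : 1 ≤ y) (hy2 : y ≤ 2)
    (hη : 0 < η) (hη1 : η ≤ 1)
    (hav : ∀ u t : ℕ → ℂ, ‖u m‖ = y → OkP p q a ξ C₀ j m (u, t) →
      (∀ i ≤ m, η ≤ ‖u i‖) ∧ ∀ i ≤ j, η ≤ ‖t i‖)
    (hB : C₀ ^ T * (C₀ ^ q ^ j / η) ^ (q * (m + j)) ≤ B) :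
    ∃ S : Sys ((ℕ → ℂ) × (ℕ → ℂ)) (PK p q j m T) (PK p q j m T'),
      (∀ x, S.Ok x ↔ OkP p q a ξ C₀ j m x) ∧ (∀ k x, S.e k x = mono k x.1 x.2) ∧
      Grid p q a ξ C₀ j m S.R ∧ S.B = B ∧
      (∀ n, n * (q ^ j * p ^ m) ≤ p ^ j * q ^ m → S.Mul fun x => x.2 j ^ n) ∧
      ∀ r, ‖(S.R r).1 m‖ = y := by
  have hp0 : 0 < p := by omega
  have hr := tr_pos hp0 (by omega : 0 < q) j
  have hξ1 : ‖ξ‖ = 1 := norm_root hp0 hξ
  have hC : 1 ≤ C₀ := by linarith [norm_nonneg a]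
  have hZ : 1 ≤ C₀ ^ q ^ j := one_le_pow₀ hC
  have hZA : C₀ ^ q ^ j ≤ C₀ ^ q ^ j / η := le_div_self (by linarith) hη hη1
  have hA : 1 ≤ C₀ ^ q ^ j / η := hZ.trans hZA
  have hok := GP_ok (ξ := ξ) (j := j) (m := m) (T := T) hp0 hpq ha (by linarith : 0 ≤ y) hy2
  have hlow : ∀ k, ∀ i ≤ m + j, η ≤ ‖GP p q j m T a ξ y k i‖ := fun k i hi => by
    obtain ⟨h1, h2⟩ := hav _ _ (GP_norm y (by linarith) k) (hok k)
    rw [← pv_sp2 (ξ := ξ) (j := j) (GP p q j m T a ξ y k)]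
    by_cases hij : i < j
    · rw [pv_of_lt hij]; exact h2 _ (by omega)
    · rw [pv_of_le (by omega)]; exact h1 _ (by omega)
  have h0 : ∀ k, ∀ i ≤ m + j, GP p q j m T a ξ y k i ≠ 0 := fun k i hi =>
    norm_pos_iff.1 (hη.trans_le (hlow k i hi))
  have hprod : ∀ f : Fin (m + j) → ℂ, (∀ i, ‖f i‖ ≤ (C₀ ^ q ^ j / η) ^ tr p q j i) →
      ∀ z : ℂ, ‖z‖ ≤ C₀ ^ T → ‖z * ∏ i, f i‖ ≤ B := fun f hf z hz => by
    refine le_trans ?_ hB
    rw [norm_mul, norm_prod]
    refine mul_le_mul hz ?_ (prod_nonneg fun _ _ => norm_nonneg _) (by positivity)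
    refine (prod_le_prod (g := fun _ => (C₀ ^ q ^ j / η) ^ q) (fun _ _ => norm_nonneg _)
      fun i _ => (hf i).trans (pow_le_pow_right₀ hA (tr_le hpq.le _ _))).trans ?_
    rw [prod_const, card_univ, Fintype.card_fin, ← pow_mul]
  have htop : ∀ x : (ℕ → ℂ) × (ℕ → ℂ), x.1 m = pv j x.1 x.2 (m + j) := fun x => by
    rw [pv_of_le (by omega), Nat.add_sub_cancel]
  have hlag : ∀ (r : PK p q j m T) (x : (ℕ → ℂ) × (ℕ → ℂ)),
      ∑ k : PK p q j m T, lagC (GP p q j m T a ξ y r) k * mono k x.1 x.2 =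
        gs T (pv j x.1 x.2 (m + j) / GP p q j m T a ξ y r (m + j)) *
          ∏ i : Fin (m + j), gs (tr p q j i) (pv j x.1 x.2 i / GP p q j m T a ξ y r i) := by
    intro r x
    rw [← lag_sum]
    simp only [mono, htop x]
  refine ⟨{ Ok := OkP p q a ξ C₀ j m
            e := fun k x => mono k x.1 x.2
            lo := (Fin.castLEEmb (by omega)).prodMap (Function.Embedding.refl _)
            R := fun k => sp2 ξ j (GP p q j m T a ξ y k)
            B := B
            hB := le_trans (one_le_mul_of_one_le_of_one_le (one_le_pow₀ hC) (one_le_pow₀ hA)) hB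
            okR := hok
            be := fun k x hx => ?_
            lag := ⟨fun r => lagC (GP p q j m T a ξ y r), fun r r' => ?_, fun r x hx => ?_⟩ },
    fun _ => Iff.rfl, fun _ _ => rfl, GP_grid hp0 hpq ha (by linarith) hy2 h0, rfl,
    fun n hn i => mul_mono hp0 hpq hj hT hn i.1 i.1.2 i.2, fun r => GP_norm y (by linarith) r⟩
  · refine hprod _ (fun i => ?_) _ ?_
    · rw [norm_pow]
      exact (pow_le_pow_left₀ (norm_nonneg _) ((pv_bound hp hpq ha hξ1 hx i i.2.le).trans hZA)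
        _).trans (pow_le_pow_right₀ hA (k.2 i).2.le)
    · rw [norm_pow]
      exact (pow_le_pow_left₀ (norm_nonneg _) (hx.2.1 m le_rfl) _).trans
        (pow_le_pow_right₀ hC k.1.2.le)
  · rw [hlag, pv_sp2]
    exact lag_delta hr y h0 r r'
  · rw [hlag]
    refine hprod _ (fun i => norm_gs_le (hr i) hA ?_) _ (norm_gs_le r.1.pos hC ?_)
    · rw [norm_div]
      exact div_le_div₀ (by linarith) (pv_bound hp hpq ha hξ1 hx i i.2.le) hη (hlow r i i.2.le)
    · rw [norm_div, GP_norm y (by linarith), ← htop]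
      exact (div_le_self (norm_nonneg _) hy).trans (hx.2.1 m le_rfl)

end Pool.Agent.MP_09973c_nt.H54
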