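import Pool.Agent.MP_09973c_nt.H58.SpecA

/-!
Grids of paths in a tower, and the Lagrange basis of such a grid.
-/

set_option autoImplicit false

namespace Pool.Agent.MP_09973c_nt.H54

open Finset Pool.Agent.MP_09973c_nt.H31 Pool.Agent.MP_09973c_nt.H58

/-- A primitive root of unity. -/
noncomputable def ze (r : ℕ) : ℂ := Complex.exp (2 * Real.pi * Complex.I / r)

theorem ze_prim {r : ℕ} (hr : 0 < r) : IsPrimitiveRoot (ze r) r :=
  Complex.isPrimitiveRoot_exp r hr.ne'

theorem ze_pow_pow {r : ℕ} (hr : 0 < r) (e : ℕ) : (ze r ^ e) ^ r = 1 := by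
  rw [← pow_mul, mul_comm, pow_mul, (ze_prim hr).pow_eq_one, one_pow]

/-- A chosen root. -/
noncomputable def rt (r : ℕ) (x : ℂ) : ℂ := x ^ ((r : ℂ)⁻¹)

theorem rt_pow {r : ℕ} (hr : 0 < r) (x : ℂ) : rt r x ^ r = x :=
  Complex.cpow_nat_inv_pow x hr.ne'

theorem exists_digit {r : ℕ} (hr : 0 < r) {x y : ℂ} (h : y ^ r = x) :
    ∃ e < r, ze r ^ e * rt r x = y := by
  by_cases h0 : rt r x = 0
  · have hx : x = 0 := by rw [← rt_pow hr x, h0, zero_pow hr.ne']
    refine ⟨0, hr, ?_⟩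
    rw [h0, mul_zero]
    exact (pow_eq_zero_iff hr.ne').1 (h.trans hx) |>.symm
  · have : NeZero r := ⟨hr.ne'⟩
    obtain ⟨i, hi, he⟩ := (ze_prim hr).eq_pow_of_pow_eq_one (ξ := y / rt r x) (by
      rw [div_pow, h, rt_pow hr, div_self]
      rw [← rt_pow hr x]; exact pow_ne_zero _ h0)
    exact ⟨i, hi, by rw [he, div_mul_cancel₀ _ h0]⟩

section Tower

variable (r s : ℕ → ℕ) (α β : ℕ → ℂ) (n : ℕ)

/-- The grid path, indexed by the depth below the top. -/
noncomputable def gd (x : ℂ) (dg : ℕ → ℕ) : ℕ → ℂ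
  | 0 => x
  | d + 1 => ze (r (n - 1 - d)) ^ dg (n - 1 - d) *
      rt (r (n - 1 - d)) (α (n - 1 - d) * gd x dg d ^ s (n - 1 - d) + β (n - 1 - d))

/-- The grid path with top `x` and digits `dg`. -/
noncomputable def gv (x : ℂ) (dg : ℕ → ℕ) (i : ℕ) : ℂ := gd r s α β n x dg (n - i)

variable {r s α β n}

theorem gv_top (x : ℂ) (dg : ℕ → ℕ) : gv r s α β n x dg n = x := by simp [gv, gd]

theorem gv_step (x : ℂ) (dg : ℕ → ℕ) {i : ℕ} (hi : i < n) :
    gv r s α β n x dg i =
      ze (r i) ^ dg i * rt (r i) (α i * gv r s α β n x dg (i + 1) ^ s i + β i) := by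
  unfold gv
  rw [show n - i = (n - (i + 1)) + 1 by omega, gd, show n - 1 - (n - (i + 1)) = i by omega]

theorem gv_path (hr : ∀ k, 0 < r k) (x : ℂ) (dg : ℕ → ℕ) :
    IsPath r s α β n (gv r s α β n x dg) := fun k hk => by
  rw [gv_step x dg hk, mul_pow, ze_pow_pow (hr k), one_mul, rt_pow (hr k)]

theorem gv_congr (x : ℂ) {dg dg' : ℕ → ℕ} {i : ℕ} (hi : i ≤ n)
    (h : ∀ k, i ≤ k → k < n → dg k = dg' k) : gv r s α β n x dg i = gv r s α β n x dg' i := by
  induction hi using Nat.decreasingInduction with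
  | self => rw [gv_top, gv_top]
  | of_succ k hk ih =>
    rw [gv_step x dg hk, gv_step x dg' hk, h k le_rfl hk, ih fun l hl => h l (by omega)]

theorem gv_digit (hr : ∀ k, 0 < r k) {x x' : ℂ} {dg dg' : ℕ → ℕ} {i : ℕ} (hi : i < n)
    (hd : dg i < r i) (hd' : dg' i < r i) (h0 : gv r s α β n x dg i ≠ 0)
    (h1 : gv r s α β n x dg i = gv r s α β n x' dg' i)
    (h2 : gv r s α β n x dg (i + 1) = gv r s α β n x' dg' (i + 1)) : dg i = dg' i := by
  rw [gv_step x dg hi] at h0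
  rw [gv_step x dg hi, gv_step x' dg' hi, ← h2] at h1
  exact (ze_prim (hr i)).pow_inj hd hd' (mul_right_cancel₀ (right_ne_zero_of_mul h0) h1)

/-- Every piece of a path below a grid point is realized by changing digits. -/
theorem gv_realize (hr : ∀ k, 0 < r k) (x : ℂ) (dg : ℕ → ℕ) {lo hi : ℕ} (hlo : lo ≤ hi)
    (hhi : hi ≤ n) (w : ℕ → ℂ) (hw : w hi = gv r s α β n x dg hi)
    (hp : ∀ k, lo ≤ k → k < hi → w k ^ r k = α k * w (k + 1) ^ s k + β k) :
    ∃ dg' : ℕ → ℕ, (∀ k, lo ≤ k → k < hi → dg' k < r k) ∧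
      (∀ k, k < lo ∨ hi ≤ k → dg' k = dg k) ∧
      ∀ k, lo ≤ k → k ≤ hi → gv r s α β n x dg' k = w k := by
  induction hlo using Nat.decreasingInduction with
  | self =>
    refine ⟨dg, fun k h1 h2 => by omega, fun _ _ => rfl, fun k h1 h2 => ?_⟩
    rw [show k = hi by omega, hw]
  | of_succ l hl ih =>
    obtain ⟨dg', h1, h2, h3⟩ := ih fun k hk => hp k (by omega)
    obtain ⟨e, he, hew⟩ := exists_digit (hr l) (hp l le_rfl hl)
    have hup : ∀ k, l + 1 ≤ k → k ≤ hi → gv r s α β n x (Function.update dg' l e) k = w k := by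
      intro k hk hk'
      rw [← h3 k hk hk']
      exact gv_congr x (by omega) fun i hi _ => Function.update_of_ne (by omega) _ _
    refine ⟨Function.update dg' l e, fun k hk hk' => ?_, fun k hk => ?_, fun k hk hk' => ?_⟩
    · by_cases hkl : k = l
      · subst hkl; rwa [Function.update_self]
      · rw [Function.update_of_ne hkl]; exact h1 k (by omega) hk'
    · rw [Function.update_of_ne (by omega)]; exact h2 k (by omega)
    · by_cases hkl : k = l
      · subst hkl
        rw [gv_step x _ (by omega), Function.update_self, hup _ le_rfl (by omega), hew]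
      · exact hup k (by omega) hk'

theorem expo_lt (hr : ∀ k, 0 < r k) (l : Idx r n) (k : ℕ) : expo l k < r k := by
  unfold expo
  split_ifs with h
  · exact (l ⟨k, h⟩).2
  · exact hr k

theorem idx_ext {l l' : Idx r n} (h : ∀ k < n, expo l k = expo l' k) : l = l' := by
  funext k
  have := h k k.2
  simp only [expo, k.2, dif_pos] at this
  exact Fin.ext this

/-- The same with indices. -/
theorem idx_realize (hr : ∀ k, 0 < r k) (x : ℂ) (l : Idx r n) {lo hi : ℕ} (hlo : lo ≤ hi)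
    (hhi : hi ≤ n) (w : ℕ → ℂ) (hw : w hi = gv r s α β n x (expo l) hi)
    (hp : ∀ k, lo ≤ k → k < hi → w k ^ r k = α k * w (k + 1) ^ s k + β k) :
    ∃ l' : Idx r n, (∀ k, k < lo ∨ hi ≤ k → expo l' k = expo l k) ∧
      ∀ k, lo ≤ k → k ≤ hi → gv r s α β n x (expo l') k = w k := by
  obtain ⟨dg, h1, h2, h3⟩ := gv_realize hr x (expo l) hlo hhi w hw hp
  have hlt : ∀ k, dg k < r k := fun k => by
    by_cases hk : k < lo ∨ hi ≤ k
    · rw [h2 k hk]; exact expo_lt hr l k
    · exact h1 k (by omega) (by omega)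
  have he : ∀ k < n, expo (fun k : Fin n => (⟨dg k, hlt k⟩ : Fin (r k))) k = dg k :=
    fun k hk => by simp [expo, hk]
  refine ⟨fun k => ⟨dg k, hlt k⟩, fun k hk => ?_, fun k hk hk' => ?_⟩
  · by_cases hkn : k < n
    · rw [he k hkn, h2 k hk]
    · simp [expo, hkn]
  · rw [← h3 k hk hk']
    exact gv_congr x (by omega) fun i _ hi => he i hi

end Tower

/-- Normalized geometric sum. -/
noncomputable def gs (r : ℕ) (z : ℂ) : ℂ := ∑ e : Fin r, (r : ℂ)⁻¹ * z ^ (e : ℕ)

theorem gs_one {r : ℕ} (hr : 0 < r) : gs r 1 = 1 := by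
  have : (r : ℂ) ≠ 0 := by exact_mod_cast hr.ne'
  simp [gs, this]

theorem eq_one_of_gs {r : ℕ} {z : ℂ} (hz : z ^ r = 1) (h : gs r z ≠ 0) : z = 1 := by
  by_contra h1
  apply h
  rw [gs, ← mul_sum, Fin.sum_univ_eq_sum_range (fun e => z ^ e) r, geom_sum_eq h1, hz]
  simp

theorem norm_gs_le {r : ℕ} (hr : 0 < r) {z : ℂ} {A : ℝ} (hA : 1 ≤ A) (hz : ‖z‖ ≤ A) :
    ‖gs r z‖ ≤ A ^ r := by
  have hr' : (0 : ℝ) < r := by exact_mod_cast hr
  refine (norm_sum_le _ _).trans ((sum_le_card_nsmul _ _ ((r : ℝ)⁻¹ * A ^ r) fun e _ => ?_).trans ?_)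
  · rw [norm_mul, norm_inv, Complex.norm_natCast, norm_pow]
    refine mul_le_mul_of_nonneg_left ?_ (by positivity)
    exact (pow_le_pow_left₀ (norm_nonneg _) hz _).trans (pow_le_pow_right₀ hA e.2.le)
  · rw [card_univ, Fintype.card_fin, nsmul_eq_mul, ← mul_assoc, mul_inv_cancel₀ hr'.ne', one_mul]

section Lag

variable {r s : ℕ → ℕ} {α β : ℕ → ℂ} {n T : ℕ}

/-- Coefficients of the Lagrange function of the point `g`. -/
noncomputable def lagC (g : ℕ → ℂ) (k : Fin T × Idx r n) : ℂ :=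
  ((T : ℂ)⁻¹ * (g n)⁻¹ ^ (k.1 : ℕ)) * ∏ i : Fin n, ((r i : ℂ)⁻¹ * (g i)⁻¹ ^ (k.2 i : ℕ))

theorem lag_sum (g v : ℕ → ℂ) :
    ∑ k : Fin T × Idx r n, lagC g k * (v n ^ (k.1 : ℕ) * bas k.2 v) =
      gs T (v n / g n) * ∏ i : Fin n, gs (r i) (v i / g i) := by
  simp only [gs]
  rw [Fintype.prod_sum, Fintype.sum_prod_type, sum_mul_sum]
  refine sum_congr rfl fun a _ => sum_congr rfl fun l _ => ?_
  simp only [lagC, bas, div_eq_mul_inv, mul_pow]
  rw [mul_mul_mul_comm, ← prod_mul_distrib]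
  congr 1
  · ring
  · exact prod_congr rfl fun i _ => by ring

variable (r s α β n T) in
/-- The grid. -/
noncomputable def GG (y : ℂ) (k : Fin T × Idx r n) : ℕ → ℂ :=
  gv r s α β n (y * ze T ^ (k.1 : ℕ)) (expo k.2)

theorem GG_top (y : ℂ) (k : Fin T × Idx r n) : GG r s α β n T y k n = y * ze T ^ (k.1 : ℕ) :=
  gv_top _ _

theorem lag_delta (hr : ∀ k, 0 < r k) (y : ℂ)
    (h0 : ∀ k, ∀ i ≤ n, GG r s α β n T y k i ≠ 0) (k k' : Fin T × Idx r n) :
    gs T (GG r s α β n T y k' n / GG r s α β n T y k n) *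
      ∏ i : Fin n, gs (r i) (GG r s α β n T y k' i / GG r s α β n T y k i) =
      if k = k' then 1 else 0 := by
  have hT : 0 < T := k.1.pos
  split_ifs with h
  · subst h
    rw [div_self (h0 k n le_rfl), gs_one hT, one_mul]
    exact prod_eq_one fun i _ => by rw [div_self (h0 k i i.2.le), gs_one (hr i)]
  · by_contra hne
    apply h
    have hy : y ≠ 0 := by
      have := h0 k n le_rfl
      rw [GG_top] at this
      exact left_ne_zero_of_mul this
    have hf : ∀ i < n, gs (r i) (GG r s α β n T y k' i / GG r s α β n T y k i) ≠ 0 :=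
      fun i hi => prod_ne_zero_iff.1 (right_ne_zero_of_mul hne) ⟨i, hi⟩ (mem_univ _)
    have htop : GG r s α β n T y k' n = GG r s α β n T y k n := by
      refine (div_eq_one_iff_eq (h0 k n le_rfl)).1 (eq_one_of_gs ?_ (left_ne_zero_of_mul hne))
      rw [div_pow, GG_top, GG_top, mul_pow, mul_pow, ze_pow_pow hT, ze_pow_pow hT, div_self]
      simpa using fun h => absurd h hy
    have hall : ∀ i ≤ n, GG r s α β n T y k' i = GG r s α β n T y k i := by
      intro i hi
      induction hi using Nat.decreasingInduction with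
      | self => exact htop
      | of_succ i hi ih =>
        refine (div_eq_one_iff_eq (h0 k i hi.le)).1 (eq_one_of_gs ?_ (hf i hi))
        have e1 := gv_path (s := s) (α := α) (β := β) hr (y * ze T ^ (k'.1 : ℕ)) (expo k'.2) i hi
        have e2 := gv_path (s := s) (α := α) (β := β) hr (y * ze T ^ (k.1 : ℕ)) (expo k.2) i hi
        have e3 := pow_ne_zero (r i) (h0 k i hi.le)
        unfold GG at ih e3 ⊢
        rw [div_pow, e1, ih, ← e2, div_self e3]
    refine Prod.ext (Fin.ext ?_) (idx_ext fun i hi => ?_)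
    · rw [GG_top, GG_top] at htop
      exact ((ze_prim hT).pow_inj k'.1.2 k.1.2 (mul_left_cancel₀ hy htop)).symm
    · exact gv_digit hr hi (expo_lt hr _ _) (expo_lt hr _ _) (h0 k i hi.le) (hall i hi.le).symm
        (hall (i + 1) hi).symm

end Lag

end Pool.Agent.MP_09973c_nt.H54
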