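import Pool.Agent.MP_09973c_nt.H54.Avoid

/-!
Chains with tails as paths in a tower; multiplication by powers of the top of the tail.
-/

set_option autoImplicit false

namespace Pool.Agent.MP_09973c_nt.H54

open Finset Pool.Agent.MP_09973c_nt.H31 Pool.Agent.MP_09973c_nt.H58

theorem tr_eq (p q j : ℕ) : ∀ k, tr p q j k = if k < j then p else q := by
  induction j with
  | zero => intro k; simp [tr]
  | succ j ih => intro k; cases k <;> simp [tr, ih]

theorem tα_eq (ξ : ℂ) (j : ℕ) : ∀ k, tα ξ j k = if k + 1 = j then ξ else 1 := by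
  induction j with
  | zero => intro k; simp [tα]
  | succ j ih => intro k; cases k <;> simp [tα, ih, top, eq_comm]

theorem tβ_eq (c : ℂ) (j : ℕ) : ∀ k, tβ c j k = if k < j then -c else c := by
  induction j with
  | zero => intro k; simp [tβ]
  | succ j ih => intro k; cases k <;> simp [tβ, ih]

theorem tr_le {p q : ℕ} (hpq : p ≤ q) (j k : ℕ) : tr p q j k ≤ q := by
  rw [tr_eq]; split_ifs <;> omega

section

variable {p q j m : ℕ} {a ξ : ℂ}

theorem pv_of_lt {u t : ℕ → ℂ} {k : ℕ} (h : k < j) : pv j u t k = t (j - k) := if_pos h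

theorem pv_of_le {u t : ℕ → ℂ} {k : ℕ} (h : j ≤ k) : pv j u t k = u (k - j) := if_neg (by omega)

theorem pv_step {m₁ j₁ : ℕ} {u t : ℕ → ℂ} (hu : Bwd p q a m₁ u) (h0 : t 0 = ξ * u 0)
    (ht : Bwd p q a j₁ t) (k : ℕ) (h1 : j - j₁ ≤ k) (h2 : k < m₁ + j) :
    pv j u t k ^ tr p q j k =
      tα (ξ ^ q) j k * pv j u t (k + 1) ^ tr q p j k + tβ a j k := by
  rw [tr_eq, tr_eq, tα_eq, tβ_eq]
  rcases lt_trichotomy (k + 1) j with h | h | h
  · have := ht (j - (k + 1)) (by omega)
    rw [show j - (k + 1) + 1 = j - k by omega] at this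
    rw [pv_of_lt (by omega), pv_of_lt h, if_pos (by omega), if_neg (by omega), if_pos (by omega),
      if_pos (by omega), ← this]
    ring
  · have := ht 0 (by omega)
    rw [pv_of_lt (by omega), pv_of_le (by omega), if_pos (by omega), if_pos h, if_pos (by omega),
      if_pos (by omega), show j - k = 0 + 1 by omega, show k + 1 - j = 0 by omega, ← mul_pow,
      ← h0, ← this]
    ring
  · have := hu (k - j) (by omega)
    rw [pv_of_le (by omega), pv_of_le (by omega), if_neg (by omega), if_neg (by omega),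
      if_neg (by omega), if_neg (by omega), show k + 1 - j = k - j + 1 by omega, ← this]
    ring

theorem pv_path {C₀ : ℝ} {x : (ℕ → ℂ) × (ℕ → ℂ)} (h : OkP p q a ξ C₀ j m x) :
    IsPath (tr p q j) (tr q p j) (tα (ξ ^ q) j) (tβ a j) (m + j) (pv j x.1 x.2) :=
  fun k hk => pv_step h.1 h.2.2.1 h.2.2.2 k (by omega) hk

/-- The chain and the tail of a path. -/
noncomputable def sp2 (ξ : ℂ) (j : ℕ) (v : ℕ → ℂ) : (ℕ → ℂ) × (ℕ → ℂ) :=
  (fun i => v (i + j), fun i => if i = 0 then ξ * v j else v (j - i))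

theorem pv_sp2 (v : ℕ → ℂ) : pv j (sp2 ξ j v).1 (sp2 ξ j v).2 = v := by
  funext k
  by_cases h : k < j
  · rw [pv_of_lt h]
    simp only [sp2]
    rw [if_neg (by omega), show j - (j - k) = k by omega]
  · rw [pv_of_le (by omega)]
    simp only [sp2]
    rw [show k - j + j = k by omega]

theorem sp2_ok (hp : 0 < p) (hpq : p < q) {C₀ : ℝ} (ha : 2 + ‖a‖ ≤ C₀) {v : ℕ → ℂ}
    (h : IsPath (tr p q j) (tr q p j) (tα (ξ ^ q) j) (tβ a j) (m + j) v)
    (hv : ‖v (m + j)‖ ≤ C₀) : OkP p q a ξ C₀ j m (sp2 ξ j v) := by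
  have hu : Bwd p q a m (sp2 ξ j v).1 := fun k hk => by
    have := h (k + j) (by omega)
    rw [tr_eq, tr_eq, tα_eq, tβ_eq, if_neg (by omega), if_neg (by omega), if_neg (by omega),
      if_neg (by omega)] at this
    simp only [sp2]
    rw [this, show k + j + 1 = k + 1 + j by omega, one_mul]
  refine ⟨hu, fun i hi => ?_, by simp [sp2], fun k hk => ?_⟩
  · induction hi using Nat.decreasingInduction with
    | self => exact hv
    | of_succ k hk ih => exact root_bound hp hpq ha (hu k hk) ih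
  · have := h (j - (k + 1)) (by omega)
    rw [tr_eq, tr_eq, tα_eq, tβ_eq, if_pos (by omega), if_pos (show j - (k + 1) < j by omega),
      if_pos (show j - (k + 1) < j by omega), show j - (k + 1) + 1 = j - k by omega] at this
    simp only [sp2]
    rw [if_neg (by omega), this]
    by_cases hk0 : k = 0
    · subst hk0; simp [mul_pow]
    · rw [if_neg (by omega), if_neg hk0]; ring

theorem top_pv {C₀ : ℝ} {x : (ℕ → ℂ) × (ℕ → ℂ)} (h : OkP p q a ξ C₀ j m x) :
    x.2 j = top ξ j * pv j x.1 x.2 0 := by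
  by_cases hj : j = 0
  · subst hj; simpa [top, pv] using h.2.2.1
  · rw [pv_of_lt (by omega)]; simp [top, hj]

theorem tail_bound (hp : 2 ≤ p) (hpq : p < q) {C₀ : ℝ} (ha : 2 + ‖a‖ ≤ C₀) {t : ℕ → ℂ}
    (ht : Bwd p q a j t) (h0 : ‖t 0‖ ≤ C₀) : ∀ i ≤ j, ‖t i‖ ≤ C₀ ^ q ^ i := by
  have h1 := norm_nonneg a
  intro i
  induction i with
  | zero => intro _; simpa using h0
  | succ i ih =>
    intro hi
    have h2 : ‖t i‖ ^ q ≤ C₀ ^ q ^ (i + 1) := by
      rw [pow_succ, pow_mul]; exact pow_le_pow_left₀ (norm_nonneg _) (ih (by omega)) _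
    have h3 : C₀ ^ 1 ≤ C₀ ^ q ^ (i + 1) :=
      pow_le_pow_right₀ (by linarith) (Nat.one_le_pow _ _ (by omega))
    rw [pow_one] at h3
    refine le_of_pow_le_pow_left₀ (n := p) (by omega) (by linarith) ?_
    have h4 : (C₀ ^ q ^ (i + 1)) ^ 2 ≤ (C₀ ^ q ^ (i + 1)) ^ p := pow_le_pow_right₀ (by linarith) hp
    have h5 : t (i + 1) ^ p = t i ^ q - a := by rw [← ht i (by omega)]; ring
    have h6 := norm_sub_le (t i ^ q) a
    rw [← h5, norm_pow, norm_pow] at h6
    nlinarith

theorem pv_bound (hp : 2 ≤ p) (hpq : p < q) {C₀ : ℝ} (ha : 2 + ‖a‖ ≤ C₀) (hξ : ‖ξ‖ = 1)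
    {x : (ℕ → ℂ) × (ℕ → ℂ)} (h : OkP p q a ξ C₀ j m x) :
    ∀ k ≤ m + j, ‖pv j x.1 x.2 k‖ ≤ C₀ ^ q ^ j := by
  have h1 := norm_nonneg a
  intro k hk
  by_cases hkj : k < j
  · rw [pv_of_lt hkj]
    refine (tail_bound hp hpq ha h.2.2.2 ?_ _ (by omega)).trans
      (pow_le_pow_right₀ (by linarith) (Nat.pow_le_pow_right (by omega) (by omega)))
    rw [h.2.2.1, norm_mul, hξ, one_mul]
    exact h.2.1 0 (Nat.zero_le _)
  · rw [pv_of_le (by omega)]
    refine (h.2.1 _ (by omega)).trans ?_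
    calc C₀ = C₀ ^ 1 := (pow_one _).symm
      _ ≤ _ := pow_le_pow_right₀ (by linarith) (Nat.one_le_pow _ _ (by omega))

theorem prod_tr (a b j : ℕ) {k n : ℕ} (hk : k ≤ n) (hj : j ≤ n) :
    ∏ i ∈ Ico k n, tr a b j i = a ^ (j - k) * b ^ (n - max k j) := by
  induction hk using Nat.decreasingInduction with
  | self => rw [show j - n = 0 by omega, show n - max n j = 0 by omega]; simp
  | of_succ k hk ih =>
    rw [prod_eq_prod_Ico_succ_bot hk, ih, tr_eq]
    split_ifs with h
    · rw [show j - k = j - (k + 1) + 1 by omega, show max (k + 1) j = max k j by omega]; ring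
    · rw [show j - k = j - (k + 1) by omega, show n - max k j = n - max (k + 1) j + 1 by omega]
      ring

theorem lam_eq : lam (tr p q j) (m + j) = p ^ j * q ^ m := by
  rw [lam, range_eq_Ico, prod_tr p q j (Nat.zero_le _) (by omega)]
  simp

theorem wt_zero : wt (tr p q j) (tr q p j) (m + j) 0 = q ^ j * p ^ m := by
  rw [wt, prod_tr q p j (Nat.zero_le _) (by omega)]
  simp

theorem wt_le (hpq : p ≤ q) (hj : j ≤ m) {k : ℕ} (hk : k ≤ m + j) :
    wt (tr p q j) (tr q p j) (m + j) k ≤ lam (tr p q j) (m + j) := by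
  rw [wt, lam, ← prod_range_mul_prod_Ico _ hk, prod_tr q p j hk (by omega),
    prod_tr p q j hk (by omega)]
  refine Nat.mul_le_mul_left _ ?_
  obtain ⟨d, hd⟩ : ∃ d, m + j - max k j = j - k + d := ⟨m + j - max k j - (j - k), by omega⟩
  rw [hd, pow_add, pow_add]
  have := Nat.pow_le_pow_left hpq d
  calc q ^ (j - k) * (p ^ (j - k) * p ^ d) ≤ q ^ (j - k) * (p ^ (j - k) * q ^ d) := by gcongr
    _ = _ := by ring

theorem mul_mono (hp : 0 < p) (hpq : p < q) (hj : j ≤ m) {C₀ : ℝ} {T T' n : ℕ}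
    (hT : T' + (2 * q * m + 1) ≤ T) (hn : n * (q ^ j * p ^ m) ≤ p ^ j * q ^ m)
    (e : ℕ) (he : e < T') (l : Idx (tr p q j) (m + j)) :
    ∃ c : PK p q j m T → ℂ, ∀ x, OkP p q a ξ C₀ j m x →
      x.2 j ^ n * (x.1 m ^ e * bas l (pv j x.1 x.2)) = ∑ k, c k * mono k x.1 x.2 := by
  have hr := tr_pos hp (by omega : 0 < q) j
  obtain ⟨c, hc, h⟩ := NF_monE (r := tr p q j) (s := tr q p j) (α := tα (ξ ^ q) j) (β := tβ a j)
    (n := m + j) hr (T - 1) (Pi.single 0 n + Pi.single (m + j) e + expo l) (by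
      rw [lin_add, lin_add, lin_single (Nat.zero_le _), lin_single le_rfl, wt_self, wt_zero]
      have h1 := lin_expo_le l (wt (tr p q j) (tr q p j) (m + j))
      have h2 : ∑ k ∈ range (m + j), (tr p q j k - 1) * wt (tr p q j) (tr q p j) (m + j) k ≤
          (m + j) * (q * lam (tr p q j) (m + j)) := by
        refine (sum_le_card_nsmul _ _ (q * lam (tr p q j) (m + j)) fun k hk => ?_).trans (by simp)
        exact Nat.mul_le_mul ((Nat.sub_le _ _).trans (tr_le hpq.le j k))
          (wt_le hpq.le hj (mem_range.1 hk).le)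
      rw [← lam_eq (p := p) (q := q)] at hn
      have h3 : 0 < lam (tr p q j) (m + j) := prod_pos fun i _ => hr i
      have h4 : (m + j) * (q * lam (tr p q j) (m + j)) ≤ (2 * q * m) * lam (tr p q j) (m + j) := by
        rw [← mul_assoc]; exact Nat.mul_le_mul_right _ (by nlinarith)
      have h5 : (e + 2 + 2 * q * m) * lam (tr p q j) (m + j) ≤
          (T - 1 + 1) * lam (tr p q j) (m + j) := Nat.mul_le_mul_right _ (by omega)
      nlinarith)
  refine ⟨fun k => top ξ j ^ n * (c k.2).coeff k.1, fun x hx => ?_⟩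
  have h1 := h ℂ (pv j x.1 x.2) (by simpa [IsPathA] using pv_path hx)
  have h2 : pv j x.1 x.2 (m + j) = x.1 m := by rw [pv_of_le (by omega)]; simp
  rw [aeval_monE, monE_add, monE_add, monE_single (Nat.zero_le _), monE_single le_rfl, monE_expo,
    h2] at h1
  rw [top_pv hx, mul_pow, mul_assoc, ← mul_assoc (pv j x.1 x.2 0 ^ n), h1, mul_sum,
    Fintype.sum_prod_type, sum_comm]
  refine sum_congr rfl fun l' _ => ?_
  rw [Polynomial.aeval_eq_sum_range' (n := T) (by have := hc l'; omega), sum_mul, mul_sum,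
    ← Fin.sum_univ_eq_sum_range
      (fun i => top ξ j ^ n * ((c l').coeff i • x.1 m ^ i * bas l' (pv j x.1 x.2))) T]
  refine sum_congr rfl fun i _ => ?_
  simp only [mono, smul_eq_mul]
  ring

end

end Pool.Agent.MP_09973c_nt.H54
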