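import Pool.Agent.MP_09973c_nt.H54.GSys

/-!
Choice of the parameters.
-/

set_option autoImplicit false

namespace Pool.Agent.MP_09973c_nt.H54

open Finset Pool.Agent.MP_09973c_nt.H31 Pool.Agent.MP_09973c_nt.H58

theorem growth {p q : ℕ} (hp : 0 < p) (hpq : p < q) (c : ℕ) :
    ∃ C, 0 < C ∧ ∀ l m, 1 ≤ l → C * l ≤ m → 2 ^ (c * l) * (m + 1) ^ 2 * p ^ m ≤ q ^ m := by
  refine ⟨p * (2 * (c + 2 * p + 4)), by positivity, fun l m hl hm => ?_⟩
  have h1 : 2 * p ^ p ≤ q ^ p := by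
    have := pow_add_mul_le_add_pow (a := p) (b := 1) (Nat.zero_le _) (Nat.zero_le _) p
    have h2 : p * p ^ (p - 1) = p ^ p := by rw [← pow_succ']; congr 1; omega
    have h3 : (p + 1) ^ p ≤ q ^ p := Nat.pow_le_pow_left hpq _
    rw [Nat.cast_id, mul_one, h2] at this
    omega
  have h2 : 2 * (c + 2 * p + 4) * l ≤ m / p := by
    rw [Nat.le_div_iff_mul_le hp]; nlinarith
  have hm' : m = p * (m / p) + m % p := (Nat.div_add_mod m p).symm
  have hr : m % p < p := Nat.mod_lt _ hp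
  generalize m / p = y at h2 hm'
  generalize m % p = r at hr hm'
  have h3 : 2 ^ y * p ^ m ≤ q ^ m := by
    rw [hm', pow_add, pow_add, pow_mul, pow_mul, ← mul_assoc, ← mul_pow]
    exact Nat.mul_le_mul (Nat.pow_le_pow_left h1 _) (Nat.pow_le_pow_left hpq.le _)
  refine le_trans (Nat.mul_le_mul_right _ ?_) h3
  have h4 : m + 1 ≤ 2 ^ (p + 2 + y / 4) := by
    have a1 : p < 2 ^ p := Nat.lt_two_pow_self
    have a2 : y / 4 < 2 ^ (y / 4) := Nat.lt_two_pow_self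
    have a3 : y + 1 ≤ 2 ^ 2 * 2 ^ (y / 4) := by omega
    rw [add_assoc, pow_add, pow_add]
    calc m + 1 ≤ p * (y + 1) := by rw [hm', mul_add]; omega
      _ ≤ _ := Nat.mul_le_mul a1.le a3
  calc 2 ^ (c * l) * (m + 1) ^ 2 ≤ 2 ^ (c * l) * (2 ^ (p + 2 + y / 4)) ^ 2 := by gcongr
    _ = 2 ^ (c * l + (p + 2 + y / 4) * 2) := by rw [← pow_mul, ← pow_add]
    _ ≤ 2 ^ y := by
      refine Nat.pow_le_pow_right (by omega) ?_
      have : 2 * (c * l) + 2 * (2 * p + 4) ≤ y := by nlinarith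
      omega

theorem params {p q : ℕ} (hp : 0 < p) (hpq : p < q) (c : ℕ) :
    ∃ C, ∀ j₀ nb w K Y : ℕ, 0 < w → 0 < K → 0 < Y → ∃ m₀ : ℕ, j₀ ≤ m₀ ∧
      2 ^ m₀ ≤ (2 ^ (j₀ + nb + 1) * w * K * Y) ^ C ∧ ∀ m, m₀ ≤ m → ∀ T D,
        T = K * (3 * q * m + 4) * (2 * q * m + 1) → D = m + nb + j₀ + 1 →
        w * (Y * (c * T + 7 * q * c * D ^ 2 * q ^ j₀ + 3 * q * m + T + m + 1)) *
          (q ^ j₀ * p ^ m) ≤ q ^ m := by
  obtain ⟨C, hC, h⟩ := growth hp hpq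
    (4 + 2 * q + (21 * c * q ^ 2 + 7 * q * c + 3 * q + 21 * q ^ 2 + 1))
  refine ⟨C, fun j₀ nb w K Y hw hK hY => ?_⟩
  have hX : 2 ^ (j₀ + nb + 1) ≤ 2 ^ (j₀ + nb + 1) * w * K * Y := by
    rw [mul_assoc, mul_assoc]; exact Nat.le_mul_of_pos_right _ (by positivity)
  have hX' : w * K * Y ≤ 2 ^ (j₀ + nb + 1) * w * K * Y := by
    rw [mul_assoc (2 ^ _), mul_assoc (2 ^ _)]; exact Nat.le_mul_of_pos_left _ (by positivity)
  have hl := Nat.le_log_of_pow_le (by omega : 1 < 2) hX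
  have h1 := Nat.pow_log_le_self 2 (show 2 ^ (j₀ + nb + 1) * w * K * Y ≠ 0 by positivity)
  have h2 := Nat.lt_pow_succ_log_self (by omega : 1 < 2) (2 ^ (j₀ + nb + 1) * w * K * Y)
  generalize Nat.log 2 (2 ^ (j₀ + nb + 1) * w * K * Y) = l at hl h1 h2
  refine ⟨C * l, by nlinarith, ?_, fun m hm T D hT hD => le_trans ?_ (h l m (by omega) hm)⟩
  · rw [mul_comm C, pow_mul]; exact Nat.pow_le_pow_left h1 _
  rw [← mul_assoc]
  refine Nat.mul_le_mul_right _ ?_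
  generalize hc₂ : 21 * c * q ^ 2 + 7 * q * c + 3 * q + 21 * q ^ 2 + 1 = c₂
  have hq : 1 ≤ q := by omega
  have hQ : 1 ≤ q ^ j₀ := Nat.one_le_pow _ _ hq
  have a1 : w * K * Y ≤ 2 ^ (2 * l) :=
    hX'.trans (h2.le.trans (Nat.pow_le_pow_right (by omega) (by omega)))
  have a2 : q ^ j₀ ≤ 2 ^ (q * l) := by
    rw [pow_mul]
    exact (Nat.pow_le_pow_left (Nat.lt_two_pow_self).le _).trans
      (Nat.pow_le_pow_right (by positivity) (by omega))
  have a3 : c₂ ≤ 2 ^ (c₂ * l) :=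
    (Nat.lt_two_pow_self).le.trans (Nat.pow_le_pow_right (by omega) (by nlinarith))
  have a4 : D ≤ 2 ^ l * (m + 1) := by
    have : l < 2 ^ l := Nat.lt_two_pow_self
    nlinarith
  have hD1 : m + 1 ≤ D := by omega
  have b0 : D ^ 2 ≤ K * q ^ j₀ * D ^ 2 := Nat.le_mul_of_pos_left _ (by positivity)
  have b1 : T ≤ 21 * q ^ 2 * (K * q ^ j₀ * D ^ 2) := by
    have e1 : 3 * q * m + 4 ≤ 7 * q * D := by nlinarith
    have e2 : 2 * q * m + 1 ≤ 3 * q * D := by nlinarith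
    calc T ≤ (K * q ^ j₀) * (7 * q * D) * (3 * q * D) := by
          rw [hT]; gcongr; exact Nat.le_mul_of_pos_right _ hQ
      _ = _ := by ring
  have b2 : 7 * q * c * D ^ 2 * q ^ j₀ ≤ 7 * q * c * (K * q ^ j₀ * D ^ 2) := by
    rw [mul_assoc (7 * q * c), mul_assoc K, mul_comm (D ^ 2)]
    exact Nat.mul_le_mul_left _ (Nat.le_mul_of_pos_left _ hK)
  have b3 : m + 1 ≤ K * q ^ j₀ * D ^ 2 := by nlinarith
  have b4 : 3 * q * m ≤ 3 * q * (K * q ^ j₀ * D ^ 2) := Nat.mul_le_mul_left _ (by omega)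
  have b5 := Nat.mul_le_mul_left c b1
  have b6 : c * T + 7 * q * c * D ^ 2 * q ^ j₀ + 3 * q * m + T + m + 1 ≤
      c₂ * (K * q ^ j₀ * D ^ 2) := by rw [← hc₂]; nlinarith
  calc w * (Y * (c * T + 7 * q * c * D ^ 2 * q ^ j₀ + 3 * q * m + T + m + 1)) * q ^ j₀
      ≤ w * (Y * (c₂ * (K * q ^ j₀ * D ^ 2))) * q ^ j₀ := by gcongr
    _ = (w * K * Y) * q ^ j₀ * q ^ j₀ * c₂ * D ^ 2 := by ring
    _ ≤ 2 ^ (2 * l) * 2 ^ (q * l) * 2 ^ (q * l) * 2 ^ (c₂ * l) * (2 ^ l * (m + 1)) ^ 2 := by gcongr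
    _ = _ := by ring

theorem pow_le_exp {x A : ℝ} (hx : 0 ≤ x) (h : x ≤ Real.exp A) (n : ℕ) :
    x ^ n ≤ Real.exp (n * A) := by
  rw [Real.exp_nat_mul]; exact pow_le_pow_left₀ hx h n

theorem count_le {p q j m nb D : ℕ} (hpq : p < q) (hq : 2 ≤ q) (hD : m + nb + j + 1 ≤ D) :
    2 * ((nb + q ^ (j + 1) + m) * p ^ m + 1) ≤ q ^ (4 * D) := by
  have h1 : D < q ^ D := Nat.lt_pow_self hq
  have h2 : q ^ (j + 1) ≤ q ^ D := Nat.pow_le_pow_right (by omega) (by omega)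
  have h3 : p ^ m ≤ q ^ D :=
    (Nat.pow_le_pow_left hpq.le _).trans (Nat.pow_le_pow_right (by omega) (by omega))
  rw [mul_comm 4, pow_mul]
  generalize q ^ D = Q at h1 h2 h3
  have h4 : (nb + q ^ (j + 1) + m) * p ^ m ≤ (nb + q ^ (j + 1) + m) * Q := Nat.mul_le_mul_left _ h3
  have h5 : (nb + q ^ (j + 1) + m + 1) * Q ≤ 2 * Q * Q := Nat.mul_le_mul_right _ (by omega)
  have h6 : 2 ^ 2 * Q ^ 2 ≤ Q ^ 2 * Q ^ 2 :=
    Nat.mul_le_mul_right _ (Nat.pow_le_pow_left (by omega) _)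
  nlinarith

theorem sp : SPStmt := by
  intro p q C₀ hp hpq _
  obtain ⟨L, hL1, hL, hL'⟩ : ∃ L : ℝ, 1 ≤ L ∧
      q * (4 * (p : ℝ) ^ 3) ^ (p - 1) * (C₀ + 1) ^ (q - p) ≤ L ∧ q * (C₀ + 1) ^ (q - 1) ≤ L :=
    ⟨max 1 (max _ _), le_max_left _ _, le_max_of_le_right (le_max_left _ _),
      le_max_of_le_right (le_max_right _ _)⟩
  obtain ⟨c, hc⟩ := exists_nat_ge (max L (max C₀ q))
  have hce : (c : ℝ) ≤ Real.exp c := by linarith [Real.add_one_le_exp (c : ℝ)]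
  have hcL : L ≤ Real.exp c := ((le_max_left _ _).trans hc).trans hce
  have hcC : C₀ ≤ Real.exp c := ((le_max_of_le_right (le_max_left _ _)).trans hc).trans hce
  have hcq : (q : ℝ) ≤ Real.exp c := ((le_max_of_le_right (le_max_right _ _)).trans hc).trans hce
  obtain ⟨C, hC⟩ := params (by omega : 0 < p) hpq c
  refine ⟨C, fun j₀ nb w K Y hw hK hY => ?_⟩
  obtain ⟨m₀, hm₀, hm₁, hm₂⟩ := hC j₀ nb w K Y hw hK hY
  refine ⟨m₀, hm₀, hm₁, fun m hm => ?_⟩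
  obtain ⟨T, hT⟩ : ∃ T, T = K * (3 * q * m + 4) * (2 * q * m + 1) := ⟨_, rfl⟩
  obtain ⟨D, hD⟩ : ∃ D, D = m + nb + j₀ + 1 := ⟨_, rfl⟩
  have hJ := hm₂ m hm T D hT hD
  obtain ⟨T', hT'⟩ : ∃ T', T = T' + (2 * q * m + 1) := by
    refine ⟨T - (2 * q * m + 1), (Nat.sub_add_cancel ?_).symm⟩
    rw [hT]; exact Nat.le_mul_of_pos_left _ (by positivity)
  obtain ⟨J, hJd⟩ : ∃ J, J = Y * (c * T + 7 * q * c * D ^ 2 * q ^ j₀ + 3 * q * m + T + m + 1) :=
    ⟨_, rfl⟩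
  rw [← hJd] at hJ
  have hq : 0 < q := by omega
  have hTq : T ≤ q ^ m := by
    refine le_trans ?_ hJ
    refine le_trans ?_ (Nat.le_mul_of_pos_right _ (by positivity))
    refine le_trans ?_ (Nat.le_mul_of_pos_left _ hw)
    rw [hJd]
    exact le_trans (by omega) (Nat.le_mul_of_pos_left _ hY)
  refine ⟨T, T', J, by omega, hTq, fun a ξ j Bad ha hξ hj hBad => ?_⟩
  have hC0 : 0 ≤ C₀ := by linarith [norm_nonneg a]
  have hQ : ((q ^ j : ℕ) : ℝ) ≤ (q : ℝ) ^ j₀ := by exact_mod_cast Nat.pow_le_pow_right hq hj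
  have hD1 : (m : ℝ) + j + 1 ≤ D := by exact_mod_cast (by omega : m + j + 1 ≤ D)
  have hj0 : (0 : ℝ) ≤ j := by positivity
  have hm0 : (0 : ℝ) ≤ m := by positivity
  have hc0 : (0 : ℝ) ≤ c := by positivity
  have hq1 : (1 : ℝ) ≤ q := by exact_mod_cast hq
  obtain ⟨y, hy1, hy2, hy⟩ := avoid hp hpq hL1 hL hL' ha (norm_root (by omega) hξ) j m Bad
    (δ := Real.exp (-(4 * D * c))) (Real.exp_pos _) (by
      have h1 : ((2 * ((Bad.card + q ^ (j + 1) + m) * p ^ m + 1) : ℕ) : ℝ) ≤ (q ^ (4 * D) : ℕ) := by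
        exact_mod_cast count_le hpq (by omega) (by omega)
      have h2 := pow_le_exp (by positivity) hcq (4 * D)
      rw [Real.exp_neg, ← div_eq_mul_inv, div_le_one (Real.exp_pos _)]
      push_cast at h1 h2 ⊢
      exact h1.trans h2)
  have hη : Real.exp (-(6 * D * c * q ^ j₀)) ≤ (Real.exp (-(4 * D * c)) / L ^ (m + 2)) ^ q ^ j := by
    have h1 : Real.exp (-(6 * D * c)) ≤ Real.exp (-(4 * D * c)) / L ^ (m + 2) := by
      rw [le_div_iff₀ (by positivity)]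
      refine (mul_le_mul_of_nonneg_left (pow_le_exp (by linarith) hcL _) (Real.exp_pos _).le).trans ?_
      rw [← Real.exp_add, Real.exp_le_exp]
      push_cast
      nlinarith
    refine le_trans ?_ (pow_le_pow_left₀ (Real.exp_pos _).le h1 _)
    rw [← Real.exp_nat_mul, Real.exp_le_exp]
    have : (0 : ℝ) ≤ 6 * D * c := by positivity
    nlinarith
  have hη1 : Real.exp (-(6 * D * c * q ^ j₀)) ≤ 1 := by
    rw [Real.exp_le_one_iff, neg_nonpos]; positivity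
  obtain ⟨S, h1, h2, h3, h4, h5, h6⟩ := exists_sys (T := T) (T' := T') hp hpq ha hξ
    (by omega : j ≤ m) hT'.ge hy1 hy2 (Real.exp_pos _) hη1
    (B := Real.exp (c * T + 7 * q * c * D ^ 2 * q ^ j₀))
    (fun u t hu hx => ⟨fun i hi => hη.trans ((hy u t hu hx).1 i hi),
      fun i hi => hη.trans ((hy u t hu hx).2.1 i hi)⟩) (by
      have e1 : C₀ ^ q ^ j / Real.exp (-(6 * D * c * q ^ j₀)) ≤ Real.exp (7 * D * c * q ^ j₀) := by
        rw [div_le_iff₀ (Real.exp_pos _), ← Real.exp_add]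
        refine (pow_le_exp hC0 hcC _).trans (Real.exp_le_exp.2 ?_)
        have a1 := mul_le_mul_of_nonneg_right hQ hc0
        have a2 : (0 : ℝ) ≤ c * q ^ j₀ := by positivity
        nlinarith
      rw [Real.exp_add, mul_comm (c : ℝ) T]
      refine mul_le_mul (pow_le_exp hC0 hcC _) ((pow_le_exp (by positivity) e1 _).trans
        (Real.exp_le_exp.2 ?_)) (by positivity) (by positivity)
      push_cast
      calc (q : ℝ) * (m + j) * (7 * D * c * q ^ j₀) ≤ q * D * (7 * D * c * q ^ j₀) := by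
            gcongr; linarith
        _ = _ := by ring)
  have hcard : ∀ T, Fintype.card (PK p q j m T) = T * (p ^ j * q ^ m) := fun T => by
    rw [Fintype.card_prod, Fintype.card_fin, card_Idx, lam_eq]
  have hlog : Real.log (Fintype.card (PK p q j m T)) ≤ 3 * q * m := by
    have a1 : Fintype.card (PK p q j m T) ≤ q ^ (3 * m) := by
      rw [hcard, show 3 * m = m + (m + m) by ring, pow_add, pow_add]
      exact Nat.mul_le_mul hTq (Nat.mul_le_mul_right _ ((Nat.pow_le_pow_left hpq.le _).trans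
        (Nat.pow_le_pow_right hq (by omega))))
    have a2 : 0 < Fintype.card (PK p q j m T) := by
      rw [hcard]; exact Nat.mul_pos (by omega) (by positivity)
    have a3 : Real.log (Fintype.card (PK p q j m T)) ≤ Real.log ((q : ℝ) ^ (3 * m)) :=
      Real.log_le_log (by exact_mod_cast a2) (by exact_mod_cast a1)
    rw [Real.log_pow] at a3
    have a4 := Real.log_le_self (by positivity : (0 : ℝ) ≤ q)
    push_cast at a3
    nlinarith
  have hJr : (J : ℝ) = Y * (c * T + 7 * q * c * D ^ 2 * q ^ j₀ + 3 * q * m + T + m + 1) := by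
    rw [hJd]; push_cast; ring
  refine ⟨S, h1, h2, h3, ?_, ?_, fun n hn => h5 n ?_, _, Real.exp_pos _, hη1, ?_,
    fun r β hβ => hη.trans ((hy _ _ (h6 r) (h3.ok r)).2.2 β hβ)⟩
  · have a1 : (Fintype.card (PK p q j m T) : ℝ) - Fintype.card (PK p q j m T') =
        (2 * q * m + 1) * (p ^ j * q ^ m) := by
      rw [hcard, hcard, hT']; push_cast; ring
    rw [a1]
    calc _ ≤ (K : ℝ) * (3 * q * m + 4) * ((2 * q * m + 1) * (p ^ j * q ^ m)) := by gcongr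
      _ = _ := by rw [hcard, hT]; push_cast; ring
  · rw [h4, Real.log_exp, hJr]
    gcongr
  · calc n * (q ^ j * p ^ m) ≤ w * J * (q ^ j₀ * p ^ m) := by gcongr
      _ ≤ q ^ m := hJ
      _ ≤ _ := Nat.le_mul_of_pos_left _ (by positivity)
  · rw [Real.log_inv, Real.log_exp, neg_neg, hJr]
    refine mul_le_mul_of_nonneg_left ?_ (by positivity)
    have a1 : (0 : ℝ) ≤ D * c * q ^ j₀ := by positivity
    have a2 : (1 : ℝ) ≤ q * D := by nlinarith
    have a3 : (0 : ℝ) ≤ c * T + 3 * q * m + T + m + 1 := by positivity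
    nlinarith

end Pool.Agent.MP_09973c_nt.H54
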